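import Pool.Agent.Lib.MP_537232_an.NM.All
import Pool.Agent.Lib.MP_537232_an.PG.All
import Pool.Agent.Lib.MP_537232_an.PG.Cnv

/-!
# The maps `φ₁`, `φ₂`, `φ₃` preserve meets if and only if `p = 1` or `p = 2`

For `p = 1` and `p = 2` all three maps preserve meets, for all data `u n`, `v n`, `g n` as in the
problem. For all other `p` (`1 < p < ∞`) there are such data for which none of the three maps
preserves meets.

The data of the problem (`Params`), the numbers `s_n` (`sNum`, `sPrev`), the spaces `ℓ₂^(u n)` (`E`),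
the `c₀`-sum (`c0Sub`) and the positions of coordinates (`pos`) are in
`Pool/Agent/Lib/MP_537232_an/Defs.lean`. Blocks are numbered from `0`: the block `n` is the block
`n + 1` of the problem.
-/

set_option autoImplicit false

open scoped ENNReal Topology

namespace Pool.Agent.Results.MP_537232_an.Meets

open Pool.Agent.Lib.MP_537232_an

section operators

variable (X Y : Type) [NormedAddCommGroup X] [NormedSpace ℝ X]
  [NormedAddCommGroup Y] [NormedSpace ℝ Y]

/-- The Banach space of the bounded operators from `X` to `Y`, with the operator norm. -/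
def Op : Type := X →L[ℝ] Y

noncomputable instance : NormedAddCommGroup (Op X Y) :=
  (inferInstance : NormedAddCommGroup (X →L[ℝ] Y))

noncomputable instance : NormedSpace ℝ (Op X Y) := (inferInstance : NormedSpace ℝ (X →L[ℝ] Y))

variable {X Y}

/-- The value `T x`. -/
def Op.app (T : X →L[ℝ] Y) (x : X) : Y := T x

/-- The product `A T B`. -/
def Op.mul3 (A : Y →L[ℝ] Y) (T : X →L[ℝ] Y) (B : X →L[ℝ] X) : Op X Y := (A.comp T).comp B

/-- `J` is a closed ideal of the space of bounded operators from `X` to `Y`: a norm-closed subspace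
with `A T B ∈ J` for all `T ∈ J` and all bounded operators `A` on `Y` and `B` on `X`. -/
def ClosedIdeal (J : Submodule ℝ (Op X Y)) : Prop :=
  IsClosed (J : Set (Op X Y)) ∧
    ∀ (A : Op Y Y) (T : Op X Y) (B : Op X X), T ∈ J → Op.mul3 A T B ∈ J

/-- `J^T`, the smallest closed ideal containing `T`. -/
noncomputable def genBy (T : Op X Y) : Submodule ℝ (Op X Y) := sInf {J | ClosedIdeal J ∧ T ∈ J}

open Classical in
/-- The map `M ↦ J^(T M)` for `M` infinite, `M ↦ J^I` for `M` finite. -/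
noncomputable def phiMap (T : Set ℕ → Op X Y) (I : Op X Y) (M : Set ℕ) : Submodule ℝ (Op X Y) :=
  if M.Infinite then genBy (T M) else genBy I

/-- The map `phiMap T I` preserves meets. -/
def Preserves (T : Set ℕ → Op X Y) (I : Op X Y) : Prop :=
  ∀ M N : Set ℕ, phiMap T I (M ∩ N) = phiMap T I M ⊓ phiMap T I N

/-- The map `phiMap T I` does not preserve the meet of two infinite disjoint sets. -/
def Fails (T : Set ℕ → Op X Y) (I : Op X Y) : Prop :=
  ∃ M N : Set ℕ, M.Infinite ∧ N.Infinite ∧ Disjoint M N ∧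
    phiMap T I (M ∩ N) ≠ phiMap T I M ⊓ phiMap T I N

end operators

section spaces

variable (F : ℕ → Type) [∀ n, NormedAddCommGroup (F n)] [∀ n, NormedSpace ℝ (F n)]

/-- The `c₀`-sum of the normed spaces `F n`. -/
def C0 : Type := c0Sub F

noncomputable instance : NormedAddCommGroup (C0 F) := (inferInstance : NormedAddCommGroup (c0Sub F))

noncomputable instance : NormedSpace ℝ (C0 F) := (inferInstance : NormedSpace ℝ (c0Sub F))

variable {F} in
/-- The coordinate of an element of the `c₀`-sum in the block `n`. -/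
def C0.co (x : C0 F) (n : ℕ) : F n := x.1 n

/-- The `ℓ_p`-sum of the normed spaces `F n`. -/
def LS (p : ℝ≥0∞) : Type := lp F p

noncomputable instance (p : ℝ≥0∞) [Fact (1 ≤ p)] : NormedAddCommGroup (LS F p) :=
  (inferInstance : NormedAddCommGroup (lp F p))

noncomputable instance (p : ℝ≥0∞) [Fact (1 ≤ p)] : NormedSpace ℝ (LS F p) :=
  (inferInstance : NormedSpace ℝ (lp F p))

variable {F} in
/-- The coordinate of an element of the `ℓ_p`-sum in the block `n`. -/
def LS.co {p : ℝ≥0∞} (x : LS F p) (n : ℕ) : F n := x.1 n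

/-- `ℓ₁^n` -/
def L1 (n : ℕ) : Type := PiLp 1 (fun _ : Fin n => ℝ)

noncomputable instance (n : ℕ) : NormedAddCommGroup (L1 n) :=
  (inferInstance : NormedAddCommGroup (PiLp 1 (fun _ : Fin n => ℝ)))

noncomputable instance (n : ℕ) : NormedSpace ℝ (L1 n) :=
  (inferInstance : NormedSpace ℝ (PiLp 1 (fun _ : Fin n => ℝ)))

/-- The coordinates of an element of `ℓ₁^n`. -/
def L1.co {n : ℕ} (y : L1 n) (j : Fin n) : ℝ := WithLp.ofLp y j

end spaces

open Classical in
/-- `X` has the coordinates `cX x n ∈ ℓ₂^(u n)` and `Y` the coordinates `cY y n ∈ ℝ^(v n)`: `T M`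
(`M ⊂ ℕ`) are the block diagonal operators `T_M` from `X` to `Y`, and `I` is the formal
inclusion. -/
def IsRow {p : ℝ≥0∞} (P : Params p) (X Y : Type) [NormedAddCommGroup X] [NormedSpace ℝ X]
    [NormedAddCommGroup Y] [NormedSpace ℝ Y] (cX : X → ∀ n, E P.u n)
    (cY : Y → ∀ n, Fin (P.v n) → ℝ) (T : Set ℕ → Op X Y) (I : Op X Y) : Prop :=
  (∀ M x n i, cY (Op.app (T M) x) n i = if n ∈ M then inner ℝ (cX x n) (P.g n i) else 0) ∧
    ∀ x n j m t, pos P.v n j = pos P.u m t → cY (Op.app I x) n j = cX x m t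

open Classical in
/-- `Y` has the coordinates `cY y n ∈ ℝ^(v n)` and `X` the coordinates `cX x n ∈ ℓ₂^(u n)`: `S M`
(`M ⊂ ℕ`) are the block diagonal operators from `Y` to `X` with blocks `T_n*`, and `I` is the
formal inclusion. -/
def IsCol {p : ℝ≥0∞} (P : Params p) (Y X : Type) [NormedAddCommGroup Y] [NormedSpace ℝ Y]
    [NormedAddCommGroup X] [NormedSpace ℝ X] (cY : Y → ∀ n, Fin (P.v n) → ℝ)
    (cX : X → ∀ n, E P.u n) (S : Set ℕ → Op Y X) (I : Op Y X) : Prop :=
  (∀ M y n, cX (Op.app (S M) y) n = if n ∈ M then ∑ j, cY y n j • P.g n j else 0) ∧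
    ∀ y m t n j, pos P.v n j = pos P.u m t → cX (Op.app I y) m t = cY y n j

/-- The operators `T M` and `I` from `X` to `Y` exist, and for these operators `A` holds. -/
def Rows {p : ℝ≥0∞} (P : Params p) (X Y : Type) [NormedAddCommGroup X] [NormedSpace ℝ X]
    [NormedAddCommGroup Y] [NormedSpace ℝ Y] (cX : X → ∀ n, E P.u n)
    (cY : Y → ∀ n, Fin (P.v n) → ℝ) (A : (Set ℕ → Op X Y) → Op X Y → Prop) : Prop :=
  (∃ T I, IsRow P X Y cX cY T I) ∧ ∀ T I, IsRow P X Y cX cY T I → A T I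

/-- The operators `S M` and `I` from `Y` to `X` exist, and for these operators `A` holds. -/
def Cols {p : ℝ≥0∞} (P : Params p) (Y X : Type) [NormedAddCommGroup Y] [NormedSpace ℝ Y]
    [NormedAddCommGroup X] [NormedSpace ℝ X] (cY : Y → ∀ n, Fin (P.v n) → ℝ)
    (cX : X → ∀ n, E P.u n) (A : (Set ℕ → Op Y X) → Op Y X → Prop) : Prop :=
  (∃ S I, IsCol P Y X cY cX S I) ∧ ∀ S I, IsCol P Y X cY cX S I → A S I

section maps

variable {p : ℝ≥0∞} (P : Params p)

/-- `U`, the `ℓ_p`-sum of the `ℓ₂^(u n)` -/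
abbrev SU : Type := LS (E P.u) p

/-- `V`, the `c₀`-sum of the `ℓ_∞^(v n)` -/
abbrev SV : Type := C0 fun n => Fin (P.v n) → ℝ

/-- `W`, the `ℓ_∞`-sum of the `ℓ_∞^(v n)` -/
abbrev SW : Type := LS (fun n => Fin (P.v n) → ℝ) ∞

/-- `V*`, the `ℓ₁`-sum of the `ℓ₁^(v n)` -/
abbrev SVd : Type := LS (fun n => L1 (P.v n)) 1

/-- The coordinates in `V*` -/
noncomputable def SVd.co (y : SVd P) (n : ℕ) : Fin (P.v n) → ℝ := (LS.co y n).co

/-- `U_*` for `p > 1`, the `ℓ_q`-sum of the `ℓ₂^(u n)` -/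
abbrev SUd (q : ℝ≥0∞) : Type := LS (E P.u) q

/-- `U_*` for `p = 1`, the `c₀`-sum of the `ℓ₂^(u n)` -/
abbrev SUd1 : Type := C0 (E P.u)

variable [Fact (1 ≤ p)]

/-- `φ₁` (operators from `U` to `V`) preserves meets. -/
def Meets1 : Prop := Rows P (SU P) (SV P) LS.co C0.co Preserves

/-- `φ₂` (operators from `U` to `W`) preserves meets. -/
def Meets2 : Prop := Rows P (SU P) (SW P) LS.co LS.co Preserves

omit [Fact (1 ≤ p)] in
/-- `φ₃` (operators from `V*` to `U_*`) preserves meets, `p > 1`. -/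
def Meets3 (q : ℝ≥0∞) [Fact (1 ≤ q)] : Prop := Cols P (SVd P) (SUd P q) (SVd.co P) LS.co Preserves

omit [Fact (1 ≤ p)] in
/-- `φ₃` (operators from `V*` to `U_*`) preserves meets, `p = 1`. -/
def Meets3c : Prop := Cols P (SVd P) (SUd1 P) (SVd.co P) C0.co Preserves

/-- `φ₁` (operators from `U` to `V`) does not preserve meets. -/
def Fails1 : Prop := Rows P (SU P) (SV P) LS.co C0.co Fails

/-- `φ₂` (operators from `U` to `W`) does not preserve meets. -/
def Fails2 : Prop := Rows P (SU P) (SW P) LS.co LS.co Fails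

omit [Fact (1 ≤ p)] in
/-- `φ₃` (operators from `V*` to `U_*`) does not preserve meets, `p > 1`. -/
def Fails3 (q : ℝ≥0∞) [Fact (1 ≤ q)] : Prop := Cols P (SVd P) (SUd P q) (SVd.co P) LS.co Fails

end maps

/-! ## Comparison with the definitions of the library files -/

section compare

variable {X Y : Type} [NormedAddCommGroup X] [NormedSpace ℝ X]
  [NormedAddCommGroup Y] [NormedSpace ℝ Y]

lemma genBy_eq (T : X →L[ℝ] Y) : genBy (X := X) (Y := Y) T = idealGen T := by
  have h : ∀ J : Submodule ℝ (X →L[ℝ] Y), ClosedIdeal (X := X) (Y := Y) J ↔ IsClosedIdeal J := by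
    intro J
    constructor
    · rintro ⟨h1, h2⟩
      exact ⟨h1, h2⟩
    · intro h
      exact ⟨h.closed, h.comp⟩
  unfold genBy idealGen
  congr 1
  ext J
  exact and_congr (h J) Iff.rfl

lemma phiMap_eq (T : Set ℕ → (X →L[ℝ] Y)) (I : X →L[ℝ] Y) (M : Set ℕ) :
    phiMap (X := X) (Y := Y) T I M = phi T I M := by
  unfold phiMap phi
  rw [genBy_eq, genBy_eq]
  rfl

lemma preserves_of {T : Set ℕ → (X →L[ℝ] Y)} {I : X →L[ℝ] Y}
    (h : ∀ M N, phi T I (M ∩ N) = phi T I M ⊓ phi T I N) : Preserves (X := X) (Y := Y) T I := by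
  intro M N
  rw [phiMap_eq, phiMap_eq, phiMap_eq, h]
  rfl

lemma inf_even : {n : ℕ | Even n}.Infinite := by
  refine Set.infinite_of_injective_forall_mem (f := fun n : ℕ => 2 * n) (fun a b h => by
    simpa using h) fun n => ?_
  exact even_two_mul n

lemma inf_odd : {n : ℕ | Odd n}.Infinite := by
  refine Set.infinite_of_injective_forall_mem (f := fun n : ℕ => 2 * n + 1) (fun a b h => by
    simpa using h) fun n => ?_
  exact odd_two_mul_add_one n

lemma disj : Disjoint {n : ℕ | Even n} {n : ℕ | Odd n} := by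
  rw [Set.disjoint_left]
  intro n h1 h2
  exact (Nat.not_even_iff_odd.2 h2) h1

lemma fails_of {T : Set ℕ → (X →L[ℝ] Y)} {I : X →L[ℝ] Y}
    (h : phi T I ({n | Even n} ∩ {n | Odd n}) ≠ phi T I {n | Even n} ⊓ phi T I {n | Odd n}) :
    Fails (X := X) (Y := Y) T I := by
  refine ⟨{n | Even n}, {n | Odd n}, inf_even, inf_odd, disj, ?_⟩
  rw [phiMap_eq, phiMap_eq, phiMap_eq]
  exact h

end compare

section rows

variable {p : ℝ≥0∞} [Fact (1 ≤ p)] (P : Params p)

open Classical in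
/-- Rows: from the formulas to the library definitions. -/
lemma row {Z : Type} [NormedAddCommGroup Z] [NormedSpace ℝ Z] (hZ : CoordSpace P.v Z)
    (hp : p ≠ ∞) (cY : Z → ∀ n, Fin (P.v n) → ℝ) (hc : ∀ z n i, cY z n i = hZ.c z ⟨n, i⟩)
    (A : (Set ℕ → Op (LS (E P.u) p) Z) → Op (LS (E P.u) p) Z → Prop)
    (hA : ∀ (T : Set ℕ → (USp P.u p →L[ℝ] Z)) (I : USp P.u p →L[ℝ] Z), (∀ M, IsT P hZ M (T M)) →
      IsI P hZ I → A T I) : Rows P (LS (E P.u) p) Z LS.co cY A := by
  refine ⟨?_, ?_⟩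
  · choose T hT using exists_T P hZ hp
    obtain ⟨I, hI⟩ := exists_I P hZ hp
    refine ⟨T, I, ?_, ?_⟩
    · intro M x n i
      rw [hc]
      exact hT M x ⟨n, i⟩
    · intro x n j m t h
      rw [hc]
      have htw : P.tw ⟨n, j⟩ = ⟨m, t⟩ := by
        unfold Params.tw
        simp only
        rw [h]
        exact unpos_pos P.u_pos ⟨m, t⟩
      refine (hI x ⟨n, j⟩).trans ?_
      rw [htw]
      rfl
  · rintro T I ⟨h1, h2⟩
    refine hA T I ?_ ?_
    · intro M x ν
      rw [← hc]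
      exact h1 M x ν.1 ν.2
    · intro x ν
      rw [← hc]
      exact h2 x ν.1 ν.2 _ _ (PG.pos_tw P ν)

lemma row1 (hp : p ≠ ∞) (A : (Set ℕ → Op (SU P) (SV P)) → Op (SU P) (SV P) → Prop)
    (hA : ∀ (T : Set ℕ → (USp P.u p →L[ℝ] VSp P.v)) (I : USp P.u p →L[ℝ] VSp P.v),
      (∀ M, IsT P (coordV P.v) M (T M)) → IsI P (coordV P.v) I → A T I) :
    Rows P (SU P) (SV P) LS.co C0.co A :=
  row P (coordV P.v) hp C0.co (fun _ _ _ => rfl) A hA

lemma row2 (hp : p ≠ ∞) (A : (Set ℕ → Op (SU P) (SW P)) → Op (SU P) (SW P) → Prop)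
    (hA : ∀ (T : Set ℕ → (USp P.u p →L[ℝ] WSp P.v)) (I : USp P.u p →L[ℝ] WSp P.v),
      (∀ M, IsT P (coordW P.v) M (T M)) → IsI P (coordW P.v) I → A T I) :
    Rows P (SU P) (SW P) LS.co LS.co A :=
  row P (coordW P.v) hp LS.co (fun _ _ _ => rfl) A hA

end rows

section cols

variable {p : ℝ≥0∞} (P : Params p)

open Classical in
/-- Columns: from the formulas to the values on the unit vectors. -/
lemma col_single {X : Type} [NormedAddCommGroup X] [NormedSpace ℝ X] (c : X → ∀ n, E P.u n)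
    (ι : ∀ n, E P.u n → X) (hι : ∀ n y m, c (ι n y) m = (Pi.single n y : ∀ n, E P.u n) m)
    (hext : ∀ x x', (∀ n, c x n = c x' n) → x = x') (S : Set ℕ → (YSp P.v →L[ℝ] X))
    (I : YSp P.v →L[ℝ] X)
    (h1 : ∀ (M : Set ℕ) (y : YSp P.v) (n : ℕ), c (S M y) n = if n ∈ M then ∑ j, y n j • P.g n j else 0)
    (h2 : ∀ (y : YSp P.v) m t n j, pos P.v n j = pos P.u m t → c (I y) m t = y n j) :
    (∀ M ν, S M (eY P.v ν) = if ν.1 ∈ M then ι ν.1 (P.g ν.1 ν.2) else 0) ∧
      ∀ ν, I (eY P.v ν) = ι (P.tw ν).1 (EuclideanSpace.single (P.tw ν).2 1) := by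
  have h0 : ∀ n, c 0 n = 0 := by
    intro n
    have h3 := h1 ∅ 0 n
    rw [map_zero, if_neg (Set.notMem_empty n)] at h3
    exact h3
  refine ⟨fun M ν => hext _ _ fun n => ?_, fun ν => hext _ _ fun n => ?_⟩
  · rw [h1, PG.sum_eY]
    by_cases hν : ν.1 ∈ M
    · rw [if_pos hν, hι]
      by_cases hn : n ∈ M
      · rw [if_pos hn]
      · rw [if_neg hn, Pi.single_eq_of_ne]
        rintro rfl
        exact hn hν
    · rw [if_neg hν, h0]
      by_cases hn : n ∈ M
      · rw [if_pos hn, Pi.single_eq_of_ne]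
        rintro rfl
        exact hν hn
      · rw [if_neg hn]
  · rw [hι]
    exact PG.isIS_aux P (fun y => c (I y)) h2 ν n

end cols

section main

/-- The case `p = 1` or `p = 2`, rows. -/
lemma yes_rows {p : ℝ≥0∞} [Fact (1 ≤ p)] (hp : p = 1 ∨ p = 2) (P : Params p) :
    Meets1 P ∧ Meets2 P := by
  have hptop : p ≠ ∞ := by
    rcases hp with rfl | rfl
    · exact ENNReal.one_ne_top
    · exact ENNReal.ofNat_ne_top
  refine ⟨row1 P hptop _ fun T I hT hI => preserves_of fun M N =>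
    meet_rows hp P (coordV P.v) hT hI M N, row2 P hptop _ fun T I hT hI => preserves_of fun M N =>
    meet_rows hp P (coordW P.v) hT hI M N⟩

lemma yes_cols2 (P : Params 2) : Meets3 P 2 := by
  classical
  refine ⟨?_, ?_⟩
  · choose S hS using exists_S P (col2 P.u)
    obtain ⟨I, hI⟩ := exists_IS P (col2 P.u)
    refine ⟨S, I, ?_, ?_⟩
    · intro M y n
      exact formula_of_isS P (col2 P.u) (hS M) y n
    · intro y m t n j h
      exact formula_of_isIS P (col2 P.u) hI y m t n j h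
  · rintro S I ⟨h1, h2⟩
    obtain ⟨h3, h4⟩ := col_single P (fun x n => (col2 P.u).co x n) (fun n y => (col2 P.u).ι n y)
      (col2 P.u).co_ι (fun x x' h => (col2 P.u).ext x x' (funext h)) S I h1 h2
    exact preserves_of fun M N => meet_cols P (col2 P.u) (Or.inr rfl) (fun M ν => h3 M ν) h4 M N

lemma yes_cols1 (P : Params 1) : Meets3c P := by
  classical
  refine ⟨?_, ?_⟩
  · choose S hS using exists_S P (col1 P.u)
    obtain ⟨I, hI⟩ := exists_IS P (col1 P.u)
    refine ⟨S, I, ?_, ?_⟩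
    · intro M y n
      exact formula_of_isS P (col1 P.u) (hS M) y n
    · intro y m t n j h
      exact formula_of_isIS P (col1 P.u) hI y m t n j h
  · rintro S I ⟨h1, h2⟩
    obtain ⟨h3, h4⟩ := col_single P (fun x n => (col1 P.u).co x n) (fun n y => (col1 P.u).ι n y)
      (col1 P.u).co_ι (fun x x' h => (col1 P.u).ext x x' (funext h)) S I h1 h2
    exact preserves_of fun M N => meet_cols P (col1 P.u) (Or.inl rfl) (fun M ν => h3 M ν) h4 M N

/-- The coordinates of `lp.single`. -/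
lemma single_co {u : ℕ → ℕ} {r : ℝ≥0∞} (n : ℕ) (y : E u n) (m : ℕ) :
    (lp.single (E := E u) r n y : lp (E u) r) m = (Pi.single n y : ∀ n, E u n) m := rfl

open NM in
/-- The case `1 < p < 2`. -/
lemma no_lt : ∀ q : ℝ, 2 < q → ∀ [Fact (1 ≤ pE q)] [Fact (1 ≤ qE q)],
    ∃ P : Params (pE q), Fails1 P ∧ Fails2 P ∧ Fails3 P (qE q) := by
  classical
  intro q hq _ _
  obtain ⟨X⟩ := (aDatE q hq).1
  have hptop : pE q ≠ ∞ := ENNReal.ofReal_ne_top
  refine ⟨X.P, row1 X.P hptop _ fun T I hT hI => fails_of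
    (aRowF q hq X _ (coordV X.P.v) (aMul _).1 T I hT hI), row2 X.P hptop _ fun T I hT hI => fails_of
    (aRowF q hq X _ (coordW X.P.v) (aMul _).2 T I hT hI), ?_, ?_⟩
  · obtain ⟨h1, h2, h3, h4⟩ := aColE q hq X
    choose S hS using h1
    obtain ⟨I, hI⟩ := h2
    refine ⟨S, I, ?_, ?_⟩
    · intro M y n
      exact h3 M (S M) (hS M) y n
    · intro y m t n j h
      exact h4 I hI y m t n j h
  · rintro S I ⟨h1, h2⟩
    obtain ⟨h3, h4⟩ := col_single X.P (fun (x : lp (E X.P.u) (qE q)) n => x n)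
      (fun n y => lp.single (qE q) n y) single_co (fun x x' h => lp.ext (funext h)) S I h1 h2
    exact fails_of (aColF q hq X S I (fun M ν => h3 M ν) h4)

open NM (pE qE) in
/-- The case `2 < p`. -/
lemma no_gt : ∀ q : ℝ, 1 < q → q < 2 → ∀ [Fact (1 ≤ pE q)] [Fact (1 ≤ qE q)],
    ∃ P : Params (pE q), Fails1 P ∧ Fails2 P ∧ Fails3 P (qE q) := by
  classical
  intro q hq hq2 _ _
  obtain ⟨X⟩ := (PG.aDatE q hq hq2).1
  have hptop : pE q ≠ ∞ := ENNReal.ofReal_ne_top
  refine ⟨X.P, row1 X.P hptop _ fun T I hT hI => fails_of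
    (PG.aRowF q hq hq2 X _ (coordV X.P.v) (NM.aMul _).1 T I hT hI),
    row2 X.P hptop _ fun T I hT hI => fails_of
    (PG.aRowF q hq hq2 X _ (coordW X.P.v) (NM.aMul _).2 T I hT hI), ?_, ?_⟩
  · obtain ⟨h1, h2, h3, h4⟩ := PG.aColE q hq hq2 X
    choose S hS using h1
    obtain ⟨I, hI⟩ := h2
    refine ⟨S, I, ?_, ?_⟩
    · intro M y n
      exact h3 M (S M) (hS M) y n
    · intro y m t n j h
      exact h4 I hI y m t n j h
  · rintro S I ⟨h1, h2⟩
    obtain ⟨h3, h4⟩ := col_single X.P (fun (x : lp (E X.P.u) (qE q)) n => x n)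
      (fun n y => lp.single (qE q) n y) single_co (fun x x' h => lp.ext (funext h)) S I h1 h2
    exact fails_of (PG.aColF q hq hq2 X S I (fun M ν => h3 M ν) h4)

end main

/-- Let `1 ≤ p < ∞`, `q` the conjugate exponent. If `p = 1` or `p = 2`, then for all data `u n`,
`v n`, `g n` as in the problem the maps `φ₁`, `φ₂`, `φ₃` preserve meets. For all other `p` there are
data as in the problem such that none of the maps `φ₁`, `φ₂`, `φ₃` preserves meets. -/
theorem result (p q : ℝ≥0∞) [Fact (1 ≤ p)] [Fact (1 ≤ q)] (hp : p ≠ ∞) (hpq : p⁻¹ + q⁻¹ = 1) :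
    (p = 1 → ∀ P : Params p, Meets1 P ∧ Meets2 P ∧ Meets3c P) ∧
    (p = 2 → ∀ P : Params p, Meets1 P ∧ Meets2 P ∧ Meets3 P q) ∧
    (p ≠ 1 → p ≠ 2 → ∃ P : Params p, Fails1 P ∧ Fails2 P ∧ Fails3 P q) := by
  refine ⟨?_, ?_, ?_⟩
  · rintro h P
    obtain ⟨h1, h2⟩ := yes_rows (Or.inl h) P
    subst h
    exact ⟨h1, h2, yes_cols1 P⟩
  · rintro h P
    obtain ⟨h1, h2⟩ := yes_rows (Or.inr h) P
    subst h
    have hq : q = 2 := by
      have h3 : q⁻¹ = 2⁻¹ := by
        have h4 := ENNReal.inv_two_add_inv_two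
        rw [← hpq] at h4
        exact ((ENNReal.add_right_inj (by simp)).1 h4).symm
      exact inv_inj.1 h3
    subst hq
    exact ⟨h1, h2, yes_cols2 P⟩
  · intro hp1 hp2
    have h1 : 1 < p := lt_of_le_of_ne Fact.out (Ne.symm hp1)
    obtain ⟨a, ha⟩ : ∃ a : ℝ, p = ENNReal.ofReal a := ⟨p.toReal, (ENNReal.ofReal_toReal hp).symm⟩
    have ha1 : 1 < a := by
      rw [ha] at h1
      exact (ENNReal.one_lt_ofReal).1 h1
    have ha2 : a ≠ 2 := by
      rintro rfl
      exact hp2 (by rw [ha, ENNReal.ofReal_ofNat])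
    set r : ℝ := a / (a - 1) with hr
    have hr1 : 1 < r := by
      rw [hr, lt_div_iff₀ (by linarith)]
      linarith
    have hrp : r / (r - 1) = a := by
      rw [hr]
      have h3 : a - 1 ≠ 0 := by linarith
      field_simp
      ring
    have hp' : p = NM.pE r := by
      rw [ha, NM.pE, hrp]
    have hq' : q = NM.qE r := by
      have h4 : q⁻¹ = 1 - p⁻¹ := by
        rw [← hpq]
        rw [ENNReal.add_sub_cancel_left]
        exact ENNReal.inv_ne_top.2 (by rw [ha]; exact (ENNReal.ofReal_pos.2 (by linarith)).ne')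
      rw [← inv_inj, h4, ha, NM.qE, ← ENNReal.ofReal_inv_of_pos (by linarith : (0 : ℝ) < a),
        ← ENNReal.ofReal_inv_of_pos (by linarith : (0 : ℝ) < r),
        ← ENNReal.ofReal_one, ← ENNReal.ofReal_sub _ (by positivity)]
      congr 1
      rw [hr, inv_div]
      have : a ≠ 0 := by linarith
      field_simp
    subst hq'
    subst hp'
    rcases lt_or_gt_of_ne ha2 with h | h
    · refine no_lt r ?_
      rw [hr, lt_div_iff₀ (by linarith)]
      linarith
    · refine no_gt r hr1 ?_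
      rw [hr, div_lt_iff₀ (by linarith)]
      linarith

end Pool.Agent.Results.MP_537232_an.Meets
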