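import Pool.Agent.Lib.MP_537232_an.ColsMain

/-!
# The maps `φ₁`, `φ₂`, `φ₃` preserve meets in the cases `p = 1` and `p = 2`

The data of the problem (`Params`), the numbers `s_n` (`sNum`, `sPrev`), the spaces `ℓ₂^(u n)` (`E`),
the `c₀`-sum (`c0Sub`) and the positions of coordinates (`pos`) are in
`Pool/Agent/Lib/MP_537232_an/Defs.lean`. Blocks are numbered from `0`: the block `n` is the block
`n + 1` of the problem.
-/

set_option autoImplicit false

open scoped ENNReal Topology

namespace Pool.Agent.Results.MP_537232_an.MeetsPOneTwo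

open Pool.Agent.Lib.MP_537232_an

section operators

variable (X Y : Type) [NormedAddCommGroup X] [NormedSpace ℝ X]
  [NormedAddCommGroup Y] [NormedSpace ℝ Y]

/-- The Banach space of the bounded operators from `X` to `Y`, with the operator norm. -/
def Op : Type := X →L[ℝ] Y

noncomputable instance : NormedAddCommGroup (Op X Y) :=
  (inferInstance : NormedAddCommGroup (X →L[ℝ] Y))

noncomputable instance : NormedSpace ℝ (Op X Y) := (inferInstance : NormedSpace ℝ (X →L[ℝ] Y))

variable {X Y}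

/-- The value `T x`. -/
def Op.app (T : X →L[ℝ] Y) (x : X) : Y := T x

/-- The product `A T B`. -/
def Op.mul3 (A : Y →L[ℝ] Y) (T : X →L[ℝ] Y) (B : X →L[ℝ] X) : Op X Y := (A.comp T).comp B

/-- `J` is a closed ideal of the space of bounded operators from `X` to `Y`: a norm-closed subspace
with `A T B ∈ J` for all `T ∈ J` and all bounded operators `A` on `Y` and `B` on `X`. -/
def ClosedIdeal (J : Submodule ℝ (Op X Y)) : Prop :=
  IsClosed (J : Set (Op X Y)) ∧
    ∀ (A : Op Y Y) (T : Op X Y) (B : Op X X), T ∈ J → Op.mul3 A T B ∈ J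

/-- `J^T`, the smallest closed ideal containing `T`. -/
noncomputable def genBy (T : Op X Y) : Submodule ℝ (Op X Y) := sInf {J | ClosedIdeal J ∧ T ∈ J}

open Classical in
/-- The map `M ↦ J^(T M)` for `M` infinite, `M ↦ J^I` for `M` finite. -/
noncomputable def phiMap (T : Set ℕ → Op X Y) (I : Op X Y) (M : Set ℕ) : Submodule ℝ (Op X Y) :=
  if M.Infinite then genBy (T M) else genBy I

end operators

section spaces

variable (F : ℕ → Type) [∀ n, NormedAddCommGroup (F n)] [∀ n, NormedSpace ℝ (F n)]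

/-- The `c₀`-sum of the normed spaces `F n`. -/
def C0 : Type := c0Sub F

noncomputable instance : NormedAddCommGroup (C0 F) := (inferInstance : NormedAddCommGroup (c0Sub F))

noncomputable instance : NormedSpace ℝ (C0 F) := (inferInstance : NormedSpace ℝ (c0Sub F))

variable {F} in
/-- The coordinate of an element of the `c₀`-sum in the block `n`. -/
def C0.co (x : C0 F) (n : ℕ) : F n := x.1 n

/-- The `ℓ_p`-sum of the normed spaces `F n`. -/
def LS (p : ℝ≥0∞) : Type := lp F p

noncomputable instance (p : ℝ≥0∞) [Fact (1 ≤ p)] : NormedAddCommGroup (LS F p) :=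
  (inferInstance : NormedAddCommGroup (lp F p))

noncomputable instance (p : ℝ≥0∞) [Fact (1 ≤ p)] : NormedSpace ℝ (LS F p) :=
  (inferInstance : NormedSpace ℝ (lp F p))

variable {F} in
/-- The coordinate of an element of the `ℓ_p`-sum in the block `n`. -/
def LS.co {p : ℝ≥0∞} (x : LS F p) (n : ℕ) : F n := x.1 n

/-- `ℓ₁^n` -/
def L1 (n : ℕ) : Type := PiLp 1 (fun _ : Fin n => ℝ)

noncomputable instance (n : ℕ) : NormedAddCommGroup (L1 n) :=
  (inferInstance : NormedAddCommGroup (PiLp 1 (fun _ : Fin n => ℝ)))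

noncomputable instance (n : ℕ) : NormedSpace ℝ (L1 n) :=
  (inferInstance : NormedSpace ℝ (PiLp 1 (fun _ : Fin n => ℝ)))

/-- The coordinates of an element of `ℓ₁^n`. -/
def L1.co {n : ℕ} (y : L1 n) (j : Fin n) : ℝ := WithLp.ofLp y j

end spaces

open Classical in
/-- Meets for operators from `X` to `Y`, where `X` has the coordinates `cX x n ∈ ℓ₂^(u n)` and `Y` the
coordinates `cY y n ∈ ℝ^(v n)`: there are bounded operators `T M` (the block diagonal operators
`T_M`, `M ⊂ ℕ`) and `I` (the formal inclusion), given by the displayed formulas, such that the map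
`phiMap T I` (`M ↦ J^(T M)` for infinite `M`, `M ↦ J^I` for finite `M`) preserves meets. -/
def RowMeets {p : ℝ≥0∞} (P : Params p) (X Y : Type) [NormedAddCommGroup X] [NormedSpace ℝ X]
    [NormedAddCommGroup Y] [NormedSpace ℝ Y] (cX : X → ∀ n, E P.u n)
    (cY : Y → ∀ n, Fin (P.v n) → ℝ) : Prop :=
  ∃ (T : Set ℕ → Op X Y) (I : Op X Y),
    (∀ M x n i, cY (Op.app (T M) x) n i = if n ∈ M then inner ℝ (cX x n) (P.g n i) else 0) ∧
    (∀ x n j m t, pos P.v n j = pos P.u m t → cY (Op.app I x) n j = cX x m t) ∧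
    ∀ M N : Set ℕ, phiMap T I (M ∩ N) = phiMap T I M ⊓ phiMap T I N

open Classical in
/-- Meets for operators from `Y` to `X`, where `Y` has the coordinates `cY y n ∈ ℝ^(v n)` and `X` the
coordinates `cX x n ∈ ℓ₂^(u n)`: the same for the block diagonal operators `S M` with blocks
`T_n*` and the formal inclusion `I`. -/
def ColMeets {p : ℝ≥0∞} (P : Params p) (Y X : Type) [NormedAddCommGroup Y] [NormedSpace ℝ Y]
    [NormedAddCommGroup X] [NormedSpace ℝ X] (cY : Y → ∀ n, Fin (P.v n) → ℝ)
    (cX : X → ∀ n, E P.u n) : Prop :=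
  ∃ (S : Set ℕ → Op Y X) (I : Op Y X),
    (∀ M y n, cX (Op.app (S M) y) n = if n ∈ M then ∑ j, cY y n j • P.g n j else 0) ∧
    (∀ y m t n j, pos P.v n j = pos P.u m t → cX (Op.app I y) m t = cY y n j) ∧
    ∀ M N : Set ℕ, phiMap S I (M ∩ N) = phiMap S I M ⊓ phiMap S I N

/-- `φ₁` preserves meets: operators from `U`, the `ℓ_p`-sum of the `ℓ₂^(u n)`, to `V`, the `c₀`-sum of
the `ℓ_∞^(v n)`. -/
def Meets1 {p : ℝ≥0∞} [Fact (1 ≤ p)] (P : Params p) : Prop :=
  RowMeets P (LS (E P.u) p) (C0 (fun n => Fin (P.v n) → ℝ)) LS.co C0.co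

/-- `φ₂` preserves meets: operators from `U` to `W`, the `ℓ_∞`-sum of the `ℓ_∞^(v n)`. -/
def Meets2 {p : ℝ≥0∞} [Fact (1 ≤ p)] (P : Params p) : Prop :=
  RowMeets P (LS (E P.u) p) (LS (fun n => Fin (P.v n) → ℝ) ∞) LS.co LS.co

/-- `φ₃` preserves meets, case `p = 2`: operators from `V*`, the `ℓ₁`-sum of the `ℓ₁^(v n)`, to
`U_*`, the `ℓ₂`-sum of the `ℓ₂^(u n)`. -/
def Meets3 (P : Params 2) : Prop :=
  ColMeets P (LS (fun n => L1 (P.v n)) 1) (LS (E P.u) 2) (fun y n => (y.co n).co) LS.co

/-- `φ₃` preserves meets, case `p = 1`: here `U_*` is the `c₀`-sum of the `ℓ₂^(u n)`. -/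
def Meets3c (P : Params 1) : Prop :=
  ColMeets P (LS (fun n => L1 (P.v n)) 1) (C0 (E P.u)) (fun y n => (y.co n).co) C0.co

/-! ## Comparison with the definitions of the library files -/

section compare

variable {X Y : Type} [NormedAddCommGroup X] [NormedSpace ℝ X]
  [NormedAddCommGroup Y] [NormedSpace ℝ Y]

lemma genBy_eq (T : X →L[ℝ] Y) : genBy (X := X) (Y := Y) T = idealGen T := by
  have h : ∀ J : Submodule ℝ (X →L[ℝ] Y), ClosedIdeal (X := X) (Y := Y) J ↔ IsClosedIdeal J := by
    intro J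
    constructor
    · rintro ⟨h1, h2⟩
      exact ⟨h1, h2⟩
    · intro h
      exact ⟨h.closed, h.comp⟩
  unfold genBy idealGen
  congr 1
  ext J
  exact and_congr (h J) Iff.rfl

lemma phiMap_eq (T : Set ℕ → (X →L[ℝ] Y)) (I : X →L[ℝ] Y) (M : Set ℕ) :
    phiMap (X := X) (Y := Y) T I M = phi T I M := by
  unfold phiMap phi
  rw [genBy_eq, genBy_eq]
  rfl

lemma phiMap_meet {T : Set ℕ → (X →L[ℝ] Y)} {I : X →L[ℝ] Y} {M N : Set ℕ}
    (h : phi T I (M ∩ N) = phi T I M ⊓ phi T I N) :
    phiMap (X := X) (Y := Y) T I (M ∩ N) =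
      phiMap (X := X) (Y := Y) T I M ⊓ phiMap (X := X) (Y := Y) T I N := by
  rw [phiMap_eq, phiMap_eq, phiMap_eq, h]
  rfl

end compare

/-- In the cases `p = 1` and `p = 2` all three maps `φ₁`, `φ₂`, `φ₃` preserve meets. -/
theorem result :
    (∀ (p : ℝ≥0∞) [Fact (1 ≤ p)], (p = 1 ∨ p = 2) → ∀ P : Params p, Meets1 P ∧ Meets2 P) ∧
    (∀ P : Params 2, Meets3 P) ∧ ∀ P : Params 1, Meets3c P := by
  classical
  refine ⟨?_, ?_, ?_⟩
  · intro p _ hp P
    have hptop : p ≠ ∞ := by
      rcases hp with rfl | rfl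
      · exact ENNReal.one_ne_top
      · exact ENNReal.ofNat_ne_top
    have hI : ∀ {Z : Type} [NormedAddCommGroup Z] [NormedSpace ℝ Z] (hZ : CoordSpace P.v Z)
        (I : USp P.u p →L[ℝ] Z), IsI P hZ I → ∀ x n j m t, pos P.v n j = pos P.u m t →
        hZ.c (I x) ⟨n, j⟩ = x m t := by
      intro Z _ _ hZ I hI x n j m t h
      have htw : P.tw ⟨n, j⟩ = ⟨m, t⟩ := by
        unfold Params.tw
        simp only
        rw [h]
        exact unpos_pos P.u_pos ⟨m, t⟩
      rw [hI, htw]
    constructor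
    · choose T hT using exists_T P (coordV P.v) hptop
      obtain ⟨I, hI'⟩ := exists_I P (coordV P.v) hptop
      refine ⟨T, I, ?_, ?_, fun M N => phiMap_meet (meet_rows hp P (coordV P.v) hT hI' M N)⟩
      · intro M x n i
        exact hT M x ⟨n, i⟩
      · intro x n j m t h
        exact hI (coordV P.v) I hI' x n j m t h
    · choose T hT using exists_T P (coordW P.v) hptop
      obtain ⟨I, hI'⟩ := exists_I P (coordW P.v) hptop
      refine ⟨T, I, ?_, ?_, fun M N => phiMap_meet (meet_rows hp P (coordW P.v) hT hI' M N)⟩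
      · intro M x n i
        exact hT M x ⟨n, i⟩
      · intro x n j m t h
        exact hI (coordW P.v) I hI' x n j m t h
  · intro P
    choose S hS using exists_S P (col2 P.u)
    obtain ⟨I, hI⟩ := exists_IS P (col2 P.u)
    refine ⟨S, I, ?_, ?_, fun M N => phiMap_meet (meet_cols P (col2 P.u) (Or.inr rfl) hS hI M N)⟩
    · intro M y n
      exact formula_of_isS P (col2 P.u) (hS M) y n
    · intro y m t n j h
      exact formula_of_isIS P (col2 P.u) hI y m t n j h
  · intro P
    choose S hS using exists_S P (col1 P.u)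
    obtain ⟨I, hI⟩ := exists_IS P (col1 P.u)
    refine ⟨S, I, ?_, ?_, fun M N => phiMap_meet (meet_cols P (col1 P.u) (Or.inl rfl) hS hI M N)⟩
    · intro M y n
      exact formula_of_isS P (col1 P.u) (hS M) y n
    · intro y m t n j h
      exact formula_of_isIS P (col1 P.u) hI y m t n j h

end Pool.Agent.Results.MP_537232_an.MeetsPOneTwo
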