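import Pool.Agent.Lib.MP_537232_an.NM.All

/-!
# For `1 < p < 2` the maps `φ₁`, `φ₂`, `φ₃` do not preserve meets

The data of the problem (`Params`), the numbers `s_n` (`sNum`, `sPrev`), the spaces `ℓ₂^(u n)` (`E`),
the `c₀`-sum (`c0Sub`) and the positions of coordinates (`pos`) are in
`Pool/Agent/Lib/MP_537232_an/Defs.lean`. Blocks are numbered from `0`: the block `n` is the block
`n + 1` of the problem.
-/

set_option autoImplicit false

open scoped ENNReal Topology

namespace Pool.Agent.Results.MP_537232_an.NoMeets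

open Pool.Agent.Lib.MP_537232_an

section operators

variable (X Y : Type) [NormedAddCommGroup X] [NormedSpace ℝ X]
  [NormedAddCommGroup Y] [NormedSpace ℝ Y]

/-- The Banach space of the bounded operators from `X` to `Y`, with the operator norm. -/
def Op : Type := X →L[ℝ] Y

noncomputable instance : NormedAddCommGroup (Op X Y) :=
  (inferInstance : NormedAddCommGroup (X →L[ℝ] Y))

noncomputable instance : NormedSpace ℝ (Op X Y) := (inferInstance : NormedSpace ℝ (X →L[ℝ] Y))

variable {X Y}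

/-- The value `T x`. -/
def Op.app (T : X →L[ℝ] Y) (x : X) : Y := T x

/-- The product `A T B`. -/
def Op.mul3 (A : Y →L[ℝ] Y) (T : X →L[ℝ] Y) (B : X →L[ℝ] X) : Op X Y := (A.comp T).comp B

/-- `J` is a closed ideal of the space of bounded operators from `X` to `Y`: a norm-closed subspace
with `A T B ∈ J` for all `T ∈ J` and all bounded operators `A` on `Y` and `B` on `X`. -/
def ClosedIdeal (J : Submodule ℝ (Op X Y)) : Prop :=
  IsClosed (J : Set (Op X Y)) ∧
    ∀ (A : Op Y Y) (T : Op X Y) (B : Op X X), T ∈ J → Op.mul3 A T B ∈ J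

/-- `J^T`, the smallest closed ideal containing `T`. -/
noncomputable def genBy (T : Op X Y) : Submodule ℝ (Op X Y) := sInf {J | ClosedIdeal J ∧ T ∈ J}

open Classical in
/-- The map `M ↦ J^(T M)` for `M` infinite, `M ↦ J^I` for `M` finite. -/
noncomputable def phiMap (T : Set ℕ → Op X Y) (I : Op X Y) (M : Set ℕ) : Submodule ℝ (Op X Y) :=
  if M.Infinite then genBy (T M) else genBy I

end operators

section spaces

variable (F : ℕ → Type) [∀ n, NormedAddCommGroup (F n)] [∀ n, NormedSpace ℝ (F n)]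

/-- The `c₀`-sum of the normed spaces `F n`. -/
def C0 : Type := c0Sub F

noncomputable instance : NormedAddCommGroup (C0 F) := (inferInstance : NormedAddCommGroup (c0Sub F))

noncomputable instance : NormedSpace ℝ (C0 F) := (inferInstance : NormedSpace ℝ (c0Sub F))

variable {F} in
/-- The coordinate of an element of the `c₀`-sum in the block `n`. -/
def C0.co (x : C0 F) (n : ℕ) : F n := x.1 n

/-- The `ℓ_p`-sum of the normed spaces `F n`. -/
def LS (p : ℝ≥0∞) : Type := lp F p

noncomputable instance (p : ℝ≥0∞) [Fact (1 ≤ p)] : NormedAddCommGroup (LS F p) :=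
  (inferInstance : NormedAddCommGroup (lp F p))

noncomputable instance (p : ℝ≥0∞) [Fact (1 ≤ p)] : NormedSpace ℝ (LS F p) :=
  (inferInstance : NormedSpace ℝ (lp F p))

variable {F} in
/-- The coordinate of an element of the `ℓ_p`-sum in the block `n`. -/
def LS.co {p : ℝ≥0∞} (x : LS F p) (n : ℕ) : F n := x.1 n

/-- `ℓ₁^n` -/
def L1 (n : ℕ) : Type := PiLp 1 (fun _ : Fin n => ℝ)

noncomputable instance (n : ℕ) : NormedAddCommGroup (L1 n) :=
  (inferInstance : NormedAddCommGroup (PiLp 1 (fun _ : Fin n => ℝ)))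

noncomputable instance (n : ℕ) : NormedSpace ℝ (L1 n) :=
  (inferInstance : NormedSpace ℝ (PiLp 1 (fun _ : Fin n => ℝ)))

/-- The coordinates of an element of `ℓ₁^n`. -/
def L1.co {n : ℕ} (y : L1 n) (j : Fin n) : ℝ := WithLp.ofLp y j

end spaces

/-- There are infinite disjoint sets `M`, `N` for which the map `phiMap T I` does not preserve the
meet. -/
def MeetFails {X Y : Type} [NormedAddCommGroup X] [NormedSpace ℝ X]
    [NormedAddCommGroup Y] [NormedSpace ℝ Y] (T : Set ℕ → Op X Y) (I : Op X Y) : Prop :=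
  ∃ M N : Set ℕ, M.Infinite ∧ N.Infinite ∧ Disjoint M N ∧
    phiMap T I (M ∩ N) ≠ phiMap T I M ⊓ phiMap T I N

open Classical in
/-- Failure of meets for operators from `X` to `Y`, where `X` has the coordinates `cX x n ∈ ℓ₂^(u n)`
and `Y` the coordinates `cY y n ∈ ℝ^(v n)`: there are bounded operators `T M` (the block diagonal
operators `T_M`, `M ⊂ ℕ`) and `I` (the formal inclusion), given by the displayed formulas, such that
the map `phiMap T I` (`M ↦ J^(T M)` for infinite `M`, `M ↦ J^I` for finite `M`) does not preserve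
the meet of two infinite disjoint sets. -/
def RowFails {p : ℝ≥0∞} (P : Params p) (X Y : Type) [NormedAddCommGroup X] [NormedSpace ℝ X]
    [NormedAddCommGroup Y] [NormedSpace ℝ Y] (cX : X → ∀ n, E P.u n)
    (cY : Y → ∀ n, Fin (P.v n) → ℝ) : Prop :=
  ∃ (T : Set ℕ → Op X Y) (I : Op X Y),
    (∀ M x n i, cY (Op.app (T M) x) n i = if n ∈ M then inner ℝ (cX x n) (P.g n i) else 0) ∧
    (∀ x n j m t, pos P.v n j = pos P.u m t → cY (Op.app I x) n j = cX x m t) ∧ MeetFails T I

open Classical in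
/-- Failure of meets for operators from `Y` to `X`, where `Y` has the coordinates
`cY y n ∈ ℝ^(v n)` and `X` the coordinates `cX x n ∈ ℓ₂^(u n)`: the same for the block diagonal
operators `S M` with blocks `T_n*` and the formal inclusion `I`. -/
def ColFails {p : ℝ≥0∞} (P : Params p) (Y X : Type) [NormedAddCommGroup Y] [NormedSpace ℝ Y]
    [NormedAddCommGroup X] [NormedSpace ℝ X] (cY : Y → ∀ n, Fin (P.v n) → ℝ)
    (cX : X → ∀ n, E P.u n) : Prop :=
  ∃ (S : Set ℕ → Op Y X) (I : Op Y X),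
    (∀ M y n, cX (Op.app (S M) y) n = if n ∈ M then ∑ j, cY y n j • P.g n j else 0) ∧
    (∀ y m t n j, pos P.v n j = pos P.u m t → cX (Op.app I y) m t = cY y n j) ∧ MeetFails S I

/-- `φ₁` does not preserve meets: operators from `U`, the `ℓ_p`-sum of the `ℓ₂^(u n)`, to `V`, the
`c₀`-sum of the `ℓ_∞^(v n)`. -/
def Fails1 {p : ℝ≥0∞} [Fact (1 ≤ p)] (P : Params p) : Prop :=
  RowFails P (LS (E P.u) p) (C0 (fun n => Fin (P.v n) → ℝ)) LS.co C0.co

/-- `φ₂` does not preserve meets: operators from `U` to `W`, the `ℓ_∞`-sum of the `ℓ_∞^(v n)`. -/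
def Fails2 {p : ℝ≥0∞} [Fact (1 ≤ p)] (P : Params p) : Prop :=
  RowFails P (LS (E P.u) p) (LS (fun n => Fin (P.v n) → ℝ) ∞) LS.co LS.co

/-- `φ₃` does not preserve meets: operators from `V*`, the `ℓ₁`-sum of the `ℓ₁^(v n)`, to `U_*`, the
`ℓ_q`-sum of the `ℓ₂^(u n)`. -/
def Fails3 {p : ℝ≥0∞} (q : ℝ≥0∞) [Fact (1 ≤ q)] (P : Params p) : Prop :=
  ColFails P (LS (fun n => L1 (P.v n)) 1) (LS (E P.u) q) (fun y n => (y.co n).co) LS.co

/-! ## Comparison with the definitions of the library files -/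

section compare

variable {X Y : Type} [NormedAddCommGroup X] [NormedSpace ℝ X]
  [NormedAddCommGroup Y] [NormedSpace ℝ Y]

lemma genBy_eq (T : X →L[ℝ] Y) : genBy (X := X) (Y := Y) T = idealGen T := by
  have h : ∀ J : Submodule ℝ (X →L[ℝ] Y), ClosedIdeal (X := X) (Y := Y) J ↔ IsClosedIdeal J := by
    intro J
    constructor
    · rintro ⟨h1, h2⟩
      exact ⟨h1, h2⟩
    · intro h
      exact ⟨h.closed, h.comp⟩
  unfold genBy idealGen
  congr 1
  ext J
  exact and_congr (h J) Iff.rfl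

lemma phiMap_eq (T : Set ℕ → (X →L[ℝ] Y)) (I : X →L[ℝ] Y) (M : Set ℕ) :
    phiMap (X := X) (Y := Y) T I M = phi T I M := by
  unfold phiMap phi
  rw [genBy_eq, genBy_eq]
  rfl

lemma inf_even : {n : ℕ | Even n}.Infinite := by
  refine Set.infinite_of_injective_forall_mem (f := fun n : ℕ => 2 * n) (fun a b h => by
    simpa using h) fun n => ?_
  exact even_two_mul n

lemma inf_odd : {n : ℕ | Odd n}.Infinite := by
  refine Set.infinite_of_injective_forall_mem (f := fun n : ℕ => 2 * n + 1) (fun a b h => by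
    simpa using h) fun n => ?_
  exact odd_two_mul_add_one n

lemma disj : Disjoint {n : ℕ | Even n} {n : ℕ | Odd n} := by
  rw [Set.disjoint_left]
  intro n h1 h2
  exact (Nat.not_even_iff_odd.2 h2) h1

lemma fails_of {T : Set ℕ → (X →L[ℝ] Y)} {I : X →L[ℝ] Y}
    (h : phi T I ({n | Even n} ∩ {n | Odd n}) ≠ phi T I {n | Even n} ⊓ phi T I {n | Odd n}) :
    MeetFails (X := X) (Y := Y) T I := by
  refine ⟨{n | Even n}, {n | Odd n}, inf_even, inf_odd, disj, ?_⟩
  rw [phiMap_eq, phiMap_eq, phiMap_eq]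
  exact h

end compare

open NM in
theorem aux (hD : S_DatE) (hM : S_Mul) (hRF : S_RowF) (hCE : S_ColE) (hCF : S_ColF) :
    ∀ q : ℝ, 2 < q → ∀ [Fact (1 ≤ pE q)] [Fact (1 ≤ qE q)],
    ∃ P : Params (pE q), Fails1 P ∧ Fails2 P ∧ Fails3 (qE q) P := by
  classical
  intro q hq _ _
  obtain ⟨X⟩ := (hD q hq).1
  have hptop : pE q ≠ ∞ := ENNReal.ofReal_ne_top
  have hI : ∀ {Z : Type} [NormedAddCommGroup Z] [NormedSpace ℝ Z] (hZ : CoordSpace X.P.v Z)
      (I : USp X.P.u (pE q) →L[ℝ] Z), IsI X.P hZ I → ∀ x n j m t, pos X.P.v n j = pos X.P.u m t →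
      hZ.c (I x) ⟨n, j⟩ = x m t := by
    intro Z _ _ hZ I hI x n j m t h
    have htw : X.P.tw ⟨n, j⟩ = ⟨m, t⟩ := by
      unfold Params.tw
      simp only
      rw [h]
      exact unpos_pos X.P.u_pos ⟨m, t⟩
    rw [hI, htw]
  refine ⟨X.P, ?_, ?_, ?_⟩
  · choose T hT using exists_T X.P (coordV X.P.v) hptop
    obtain ⟨I, hI'⟩ := exists_I X.P (coordV X.P.v) hptop
    refine ⟨T, I, ?_, ?_, fails_of (hRF q hq X _ (coordV X.P.v) (hM _).1 T I hT hI')⟩
    · intro M x n i
      exact hT M x ⟨n, i⟩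
    · intro x n j m t h
      exact hI (coordV X.P.v) I hI' x n j m t h
  · choose T hT using exists_T X.P (coordW X.P.v) hptop
    obtain ⟨I, hI'⟩ := exists_I X.P (coordW X.P.v) hptop
    refine ⟨T, I, ?_, ?_, fails_of (hRF q hq X _ (coordW X.P.v) (hM _).2 T I hT hI')⟩
    · intro M x n i
      exact hT M x ⟨n, i⟩
    · intro x n j m t h
      exact hI (coordW X.P.v) I hI' x n j m t h
  · obtain ⟨h1, h2, h3, h4⟩ := hCE q hq X
    choose S hS using h1
    obtain ⟨I, hI⟩ := h2
    refine ⟨S, I, ?_, ?_, fails_of (hCF q hq X S I hS hI)⟩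
    · intro M y n
      exact h3 M (S M) (hS M) y n
    · intro y m t n j h
      exact h4 I hI y m t n j h

open NM in
/-- For every `p` with `1 < p < 2`, `q` the conjugate exponent, there are data `u n`, `v n`, `g n` as
in the problem such that none of the maps `φ₁`, `φ₂`, `φ₃` preserves meets. -/
theorem result : ∀ (p q : ℝ≥0∞) [Fact (1 ≤ p)] [Fact (1 ≤ q)], 1 < p → p < 2 → p⁻¹ + q⁻¹ = 1 →
      ∃ P : Params p, Fails1 P ∧ Fails2 P ∧ Fails3 q P := by
  intro p q hp1 hq1 h1 h2 hpq
  have hpt : p ≠ ∞ := (h2.trans ENNReal.ofNat_lt_top).ne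
  obtain ⟨a, ha⟩ : ∃ a : ℝ, p = ENNReal.ofReal a := ⟨p.toReal, (ENNReal.ofReal_toReal hpt).symm⟩
  have ha1 : 1 < a := by
    rw [ha] at h1
    exact (ENNReal.one_lt_ofReal).1 h1
  have ha2 : a < 2 := by
    rw [ha] at h2
    rw [ENNReal.ofReal_lt_ofNat] at h2
    exact h2
  have ha0 : 0 < a := by linarith
  set r : ℝ := a / (a - 1) with hr
  have hr2 : 2 < r := by
    rw [hr, lt_div_iff₀ (by linarith)]
    linarith
  have hrp : r / (r - 1) = a := by
    rw [hr]
    have h3 : a - 1 ≠ 0 := by linarith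
    field_simp
    ring
  have hp' : p = pE r := by
    rw [ha, pE, hrp]
  have hq' : q = qE r := by
    have h4 : q⁻¹ = 1 - p⁻¹ := by
      rw [← hpq]
      rw [ENNReal.add_sub_cancel_left]
      exact ENNReal.inv_ne_top.2 (by rw [ha]; exact (ENNReal.ofReal_pos.2 ha0).ne')
    rw [← inv_inj, h4, ha, qE, ← ENNReal.ofReal_inv_of_pos ha0, ← ENNReal.ofReal_inv_of_pos (by linarith : (0 : ℝ) < r),
      ← ENNReal.ofReal_one, ← ENNReal.ofReal_sub _ (by positivity)]
    congr 1
    rw [hr, inv_div]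
    field_simp
  subst hq'
  subst hp'
  exact aux aDatE aMul aRowF aColE aColF r hr2

end Pool.Agent.Results.MP_537232_an.NoMeets
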